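import Mathlib
import Pool.Agent.W49.Sq2.Periodic

/-!
# The decimal expansion of the square root of two is far from every eventually periodic sequence
-/

set_option autoImplicit false

open Finset Pool.Agent.W49.Sq2

namespace Pool.Agent.Results.MP_175f55_nt.HammingPeriodic

lemma fin_case (k₀ T N : ℕ) (hT : 0 < T) (w : ℕ → Fin 10)
    (hp : ∀ k, k₀ ≤ k → w (k + T) = w k) :
    (N : ℝ) ≤ (10 ^ (k₀ + T + 1) * (1 + (mis (fun k => (w k).val) N : ℝ))) ^ 2 := by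
  obtain ⟨r, hr, hden⟩ := val_rat w k₀ T hT hp
  have hs0 : (0 : ℝ) ≤ mis (fun k => (w k).val) N := by positivity
  by_cases hd : ∀ m : ℕ, ¬ r.den ∣ 10 ^ m
  · have h1 := caseA w r hr hd N
    have hT1 : 10 ≤ 10 ^ T := Nat.le_self_pow (by omega) 10
    have h2 : r.den ≤ 10 ^ (k₀ + T) := by
      have h3 : r.den ≤ 10 ^ k₀ * (10 ^ T - 1) := by
        refine Nat.le_of_dvd ?_ hden
        exact Nat.mul_pos (by positivity) (by omega)
      calc r.den ≤ 10 ^ k₀ * (10 ^ T - 1) := h3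
        _ ≤ 10 ^ k₀ * 10 ^ T := Nat.mul_le_mul_left _ (by omega)
        _ = _ := (pow_add _ _ _).symm
    have h3 : (r.den : ℝ) ≤ 10 ^ (k₀ + T) := by exact_mod_cast h2
    have h4 : (r.den : ℝ) ^ 2 ≤ (10 ^ (k₀ + T)) ^ 2 :=
      pow_le_pow_left₀ (by positivity) h3 2
    calc (N : ℝ) ≤ _ := h1
      _ ≤ (10 ^ (k₀ + T)) ^ 2 * 21 * ((mis (fun k => (w k).val) N : ℝ) + 1) ^ 2 := by
          refine mul_le_mul_of_nonneg_right ?_ (by positivity)
          linarith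
      _ ≤ (10 ^ (k₀ + T)) ^ 2 * 100 * ((mis (fun k => (w k).val) N : ℝ) + 1) ^ 2 := by
          refine mul_le_mul_of_nonneg_right ?_ (by positivity)
          exact mul_le_mul_of_nonneg_left (by norm_num) (by positivity)
      _ = _ := by ring
  · push Not at hd
    obtain ⟨m, hm⟩ := hd
    have hk : (k₀ : ℝ) + 1 ≤ 10 ^ k₀ := by
      have : k₀ + 1 ≤ 10 ^ k₀ := Nat.lt_pow_self (by norm_num)
      exact_mod_cast this
    have hT1 : (10 : ℝ) ^ k₀ * 100 ≤ 10 ^ (k₀ + T + 1) := by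
      have h1 : (10 : ℝ) ^ (k₀ + 2) ≤ 10 ^ (k₀ + T + 1) :=
        pow_le_pow_right₀ (by norm_num) (by omega)
      calc (10 : ℝ) ^ k₀ * 100 = 10 ^ (k₀ + 2) := by ring
        _ ≤ _ := h1
    have main : ∀ c : ℕ, ((N : ℝ) ≤ 28 * ((mis (fun _ => c) N : ℝ) + 1) ^ 2) →
        (∀ k, k₀ ≤ k → (w k).val = c) →
        (N : ℝ) ≤ (10 ^ (k₀ + T + 1) * (1 + (mis (fun k => (w k).val) N : ℝ))) ^ 2 := by
      intro c h1 h2
      have h3 : (mis (fun _ => c) N : ℝ) ≤ mis (fun k => (w k).val) N + k₀ := by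
        exact_mod_cast mis_le (fun k => (w k).val) (fun _ => c) k₀ N h2
      have h4 : (mis (fun _ => c) N : ℝ) + 1
          ≤ 10 ^ k₀ * (1 + (mis (fun k => (w k).val) N : ℝ)) := by
        have h5 : (0 : ℝ) ≤ k₀ := by positivity
        nlinarith
      have h5 : (0 : ℝ) ≤ (mis (fun _ => c) N : ℝ) + 1 := by positivity
      have h6 : 10 ^ k₀ * 100 * (1 + (mis (fun k => (w k).val) N : ℝ))
          ≤ 10 ^ (k₀ + T + 1) * (1 + (mis (fun k => (w k).val) N : ℝ)) :=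
        mul_le_mul_of_nonneg_right hT1 (by positivity)
      calc (N : ℝ) ≤ 28 * ((mis (fun _ => c) N : ℝ) + 1) ^ 2 := h1
        _ ≤ 10000 * ((mis (fun _ => c) N : ℝ) + 1) ^ 2 := by nlinarith [sq_nonneg ((mis (fun _ => c) N : ℝ) + 1)]
        _ = (100 * ((mis (fun _ => c) N : ℝ) + 1)) ^ 2 := by ring
        _ ≤ (10 ^ k₀ * 100 * (1 + (mis (fun k => (w k).val) N : ℝ))) ^ 2 := by
            refine pow_le_pow_left₀ (by positivity) ?_ 2
            linarith
        _ ≤ _ := pow_le_pow_left₀ (by positivity) h6 2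
    rcases caseB w r hr m hm k₀ T hT hp with h | h
    · refine main 0 ?_ h
      have := zero_case N
      nlinarith [sq_nonneg ((mis (fun _ => 0) N : ℝ) + 1)]
    · exact main 9 (nine_case N) h

/-- For every `v : ℕ → ℕ` with `v (k + T) = v k` for all `k ≥ k₀`, where `T ≥ 1`, and every `N`,
the `k`-th decimal digit of `√2` differs from `v k` for at least
`√N / 10 ^ (k₀ + T + 1) - 1` integers `1 ≤ k ≤ N`. -/
theorem result (v : ℕ → ℕ) (k₀ T : ℕ) (hT : 0 < T) (hv : ∀ k, k₀ ≤ k → v (k + T) = v k)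
    (N : ℕ) :
    Real.sqrt N ≤ 10 ^ (k₀ + T + 1) *
      (1 + (((Finset.Icc 1 N).filter
        (fun k : ℕ => ⌊Real.sqrt 2 * (10 : ℝ) ^ k⌋₊ % 10 ≠ v k)).card : ℝ)) := by
  have hw : ∃ w : ℕ → Fin 10, (∀ k, v k < 10 → (w k).val = v k) ∧
      ∀ k, k₀ ≤ k → w (k + T) = w k := by
    refine ⟨fun k => if h : v k < 10 then ⟨v k, h⟩ else 0, fun k hk => by simp [hk], ?_⟩
    intro k hk
    simp only [hv k hk]
  obtain ⟨w, hw1, hw2⟩ := hw
  have h1 := fin_case k₀ T N hT w hw2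
  have h2 : (mis (fun k => (w k).val) N : ℝ) ≤ (((Finset.Icc 1 N).filter
        (fun k : ℕ => ⌊Real.sqrt 2 * (10 : ℝ) ^ k⌋₊ % 10 ≠ v k)).card : ℝ) := by
    unfold mis
    refine Nat.cast_le.2 (Finset.card_le_card ?_)
    intro k hk
    rw [Finset.mem_filter] at hk ⊢
    refine ⟨hk.1, fun h => hk.2 ?_⟩
    have h3 : v k < 10 := by
      rw [← h]
      exact Nat.mod_lt _ (by norm_num)
    show dg k = (w k).val
    rw [hw1 k h3, ← h]
    rfl
  refine Real.sqrt_le_iff.2 ⟨by positivity, h1.trans ?_⟩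
  refine pow_le_pow_left₀ (by positivity) ?_ 2
  refine mul_le_mul_of_nonneg_left ?_ (by positivity)
  linarith

end Pool.Agent.Results.MP_175f55_nt.HammingPeriodic
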